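import Pool.Agent.H.MP_3d878b_co.A

namespace Pool.Agent.Results.MP_3d878b_co.Infinite
open Finset Pool.Agent.H.MP_3d878b_co

theorem result (c m : ℕ) : ∃ P : Finset (EuclideanSpace ℝ (Fin 3)),
    ∀ χ : EuclideanSpace ℝ (Fin 3) → Fin c, ∃ (z : EuclideanSpace ℝ (Fin 3)) (r : ℝ), 0 < r ∧
      m ≤ ((P : Set _) ∩ Metric.closedBall z r).ncard ∧
      ∀ p ∈ (P : Set _) ∩ Metric.closedBall z r, ∀ q ∈ (P : Set _) ∩ Metric.closedBall z r,
        χ p = χ q := by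
  classical
  obtain ⟨N, h⟩ := plane m c
  have N0 : (0 : ℝ) ≤ N := by positivity
  obtain ⟨x, U, u0, u1, h⟩ := h (2 * N + 2) (by linarith)
  let f : Fin N → EuclideanSpace ℝ (Fin 3) := fun w =>
    !₂[x w / (2 * U), (x w / (2 * U)) ^ 2, (w : ℕ)]
  have fi : Function.Injective f := fun a b e => by
    simpa [f, Fin.ext_iff] using congrArg (· 2) e
  refine ⟨univ.image f, fun χ => ?_⟩
  obtain ⟨e, e1, e2, z, a, -, -, a3, a4, a5, a6⟩ := h (fun w => χ (f w)) (range c) (by simp)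
    (by simp)
  have ne : e.Nonempty := card_pos.1 (by omega)
  obtain ⟨l, hl⟩ : ∃ l, l = (U / a) ^ 2 := ⟨_, rfl⟩
  have l1 : 1 ≤ l := hl ▸ one_le_pow₀ ((one_le_div a3).2 a4)
  obtain ⟨s, hs⟩ : ∃ s, s = z / (2 * U) := ⟨_, rfl⟩
  obtain ⟨i, hi⟩ : ∃ i : ℝ, i = (e.min' ne : ℕ) := ⟨_, rfl⟩
  obtain ⟨j, hj⟩ : ∃ j : ℝ, j = (e.max' ne : ℕ) := ⟨_, rfl⟩
  have R0 : 0 < l * (l - 1) * s ^ 2 + ((1 - l) / 2) ^ 2 + ((j - i) / 2) ^ 2 + 1 / 2 := by
    have : 0 ≤ l - 1 := by linarith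
    positivity
  have key : (↑(univ.image f) : Set _) ∩ Metric.closedBall !₂[l * s, (1 - l) / 2, (i + j) / 2]
      √(l * (l - 1) * s ^ 2 + ((1 - l) / 2) ^ 2 + ((j - i) / 2) ^ 2 + 1 / 2) = ↑(e.image f) := by
    ext p
    simp only [coe_image, coe_univ, Set.image_univ, Set.mem_inter_iff, Set.mem_range,
      Set.mem_image, mem_coe, Metric.mem_closedBall]
    have k : ∀ w, dist (f w) !₂[l * s, (1 - l) / 2, (i + j) / 2] ≤ √(l * (l - 1) * s ^ 2 +
        ((1 - l) / 2) ^ 2 + ((j - i) / 2) ^ 2 + 1 / 2) ↔ ((x w - z) / a) ^ 2 / 4 +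
        (x w / (2 * U)) ^ 4 + (((w : ℕ) : ℝ) - i) * ((w : ℕ) - j) ≤ 1 / 2 := by
      intro w
      have : ((x w - z) / a) ^ 2 / 4 = l * (x w / (2 * U) - s) ^ 2 := by
        rw [hl, hs]; field_simp; ring
      rw [EuclideanSpace.dist_eq, Real.sqrt_le_sqrt_iff R0.le, this]
      simp only [f, Fin.sum_univ_three, Real.dist_eq, sq_abs, Matrix.cons_val]
      constructor <;> intro <;> nlinarith
    constructor
    · rintro ⟨⟨w, rfl⟩, hw⟩
      rw [k] at hw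
      have b1 : 0 ≤ (x w / (2 * U)) ^ 4 := by positivity
      have b2 : 0 ≤ ((x w - z) / a) ^ 2 / 4 := by positivity
      have ij : i ≤ j := by rw [hi, hj]; exact_mod_cast min'_le_max' e ne
      have i0 : 0 ≤ i := by rw [hi]; positivity
      have jN : j ≤ N := by rw [hj]; exact_mod_cast (e.max' ne).2.le
      refine ⟨w, a6 w ?_ _ (min'_mem e ne) _ (max'_mem e ne) (not_lt.1 fun h => ?_)
        (not_lt.1 fun h => ?_), rfl⟩
      · rw [← div_le_iff₀ a3, ← abs_of_pos a3, ← abs_div]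
        refine abs_le_of_sq_le_sq' ?_ (by linarith) |> abs_le.2
        nlinarith [sq_nonneg (((w : ℕ) : ℝ) - (i + j) / 2)]
      · have : ((w : ℕ) : ℝ) + 1 ≤ i := by rw [hi]; exact_mod_cast h
        nlinarith
      · have : j + 1 ≤ ((w : ℕ) : ℝ) := by rw [hj]; exact_mod_cast h
        nlinarith
    · rintro ⟨w, hw, rfl⟩
      refine ⟨⟨w, rfl⟩, (k w).2 ?_⟩
      have b1 : i ≤ (w : ℕ) := by rw [hi]; exact_mod_cast min'_le e w hw
      have b2 : ((w : ℕ) : ℝ) ≤ j := by rw [hj]; exact_mod_cast le_max' e w hw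
      have b3 : ((x w - z) / a) ^ 2 ≤ 1 := by
        rw [sq_le_one_iff_abs_le_one, abs_div, abs_of_pos a3, div_le_one a3]; exact a5 w hw
      have b4 : (x w / (2 * U)) ^ 4 ≤ (1 / 2) ^ 4 := pow_le_pow_left₀ (div_nonneg (u1 w).1
        (by positivity)) (by rw [div_le_iff₀ (by positivity)]; linarith [(u1 w).2]) 4
      nlinarith
  refine ⟨!₂[l * s, (1 - l) / 2, (i + j) / 2], _, Real.sqrt_pos.2 R0, ?_⟩
  rw [key, Set.ncard_coe_finset, card_image_of_injective _ fi]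
  simp only [coe_image, Set.forall_mem_image, mem_coe]
  exact ⟨e1.le, fun p hp q hq => Fin.ext (e2 p hp q hq)⟩

end Pool.Agent.Results.MP_3d878b_co.Infinite
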